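import Mathlib
import Pool.Agent.Q52.Deg.Main

set_option autoImplicit false

/-!
# A rational self-map of `ℙ³` with dynamical degree one and degrees growing like `n⁴`

Over the field `K(u)` consider the elliptic curve `E : y² = x³ + u² (1 - u)` with the point
`σ = (u, u)` of infinite order. The total space of `E ×_{K(u)} E` is a threefold which is rational
over `K`. The map `(Q₁, Q₂) ↦ (Q₁ + 2 σ, Q₂ + Q₁ + σ)` of it has `n`-th iterate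
`(Q₁ + 2 n σ, Q₂ + n Q₁ + n² σ)`, and the height of `n² σ` grows like `n⁴`.
-/

namespace Pool.Agent.Results.MP_55ef7c_ag.QuarticGrowth

open Filter Topology Q52.Deg

/-- `F n ≍ G n`: there are constants `c₁, c₂, c₃ > 0` with `c₁ F(n) ≤ G(n) ≤ c₂ F(n)` for all
`n ≥ c₃`. -/
def Comparable (F G : ℕ → ℝ) : Prop :=
  ∃ c₁ c₂ c₃ : ℝ, 0 < c₁ ∧ 0 < c₂ ∧ 0 < c₃ ∧
    ∀ n : ℕ, c₃ ≤ n → c₁ * F n ≤ G n ∧ G n ≤ c₂ * F n

/-- **Theorem.** Over every field of characteristic different from `2` and `3` there is a dominant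
rational self-map `f` of `ℙ³` with dynamical degree `1` such that `deg (f^n) ≍ n^ℓ` for no
`ℓ ∈ {0, 1, 2, 3}`: indeed `deg (f^n) ≥ c n⁴` for `n = 2 ^ j`, `j` large. -/
theorem result (K : Type*) [Field K] (h2 : (2 : K) ≠ 0) (h3 : (3 : K) ≠ 0) :
    ∃ (f : RatMap K 3) (e : ℕ → ℕ) (δ : ℝ), f.Dominant ∧ f.IsDegreeSequence e ∧
      Tendsto (fun n : ℕ => ((e n : ℕ) : ℝ) ^ ((1 : ℝ) / n)) atTop (𝓝 δ) ∧ δ = 1 ∧
      (∃ c : ℝ, 0 < c ∧ ∀ᶠ j : ℕ in atTop, c * ((2 ^ j : ℕ) : ℝ) ^ 4 ≤ e (2 ^ j)) ∧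
      ∀ ℓ : ℕ, ℓ ≤ 3 → ¬ Comparable (fun n => (n : ℝ) ^ ℓ * δ ^ n) (fun n => e n) := by
  obtain ⟨φ, ⟨c, C, hc, hC, hup⟩, hlow⟩ := exists_phi_bounds h2 h3
  obtain ⟨f, hf⟩ := exists_ratMap_of_hom φ
  have hlower := lower_aux (e := degSeq φ) hlow
  refine ⟨f, degSeq φ, 1, f.dominant_of_rep (by norm_num) φ hf, isDegreeSequence f φ hf,
    tendsto_degSeq (by norm_num) φ c C hc hC hup, rfl, ?_, ?_⟩
  · refine ⟨1 / 13824, by norm_num, ?_⟩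
    filter_upwards [eventually_ge_atTop 7] with j hj
    have := hlower j hj
    push_cast
    linarith
  · rintro ℓ hℓ ⟨c₁, c₂, c₃, -, hc₂, -, h⟩
    -- choose a large power of two
    have h2' : Tendsto (fun j : ℕ => (2 : ℝ) ^ j) atTop atTop :=
      tendsto_pow_atTop_atTop_of_one_lt (by norm_num)
    obtain ⟨j, hj7, hj3, hjc⟩ := ((eventually_ge_atTop 7).and
      ((h2'.eventually_ge_atTop c₃).and (h2'.eventually_gt_atTop (13824 * c₂)))).exists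
    have h4 := hlower j hj7
    have hcast : ((2 ^ j : ℕ) : ℝ) = 2 ^ j := by push_cast; rfl
    have h5 := (h (2 ^ j) (by rw [hcast]; exact hj3)).2
    simp only [one_pow, mul_one] at h5
    rw [hcast] at h5
    have h1 : (1 : ℝ) ≤ 2 ^ j := one_le_pow₀ (by norm_num)
    have h6 : ((2 : ℝ) ^ j) ^ ℓ ≤ ((2 : ℝ) ^ j) ^ 3 := pow_le_pow_right₀ h1 hℓ
    have h7 : ((2 : ℝ) ^ j) ^ 4 ≤ 13824 * c₂ * ((2 : ℝ) ^ j) ^ 3 := by
      calc ((2 : ℝ) ^ j) ^ 4 ≤ 13824 * (degSeq φ (2 ^ j) : ℝ) := h4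
        _ ≤ 13824 * (c₂ * ((2 : ℝ) ^ j) ^ ℓ) := by linarith
        _ ≤ 13824 * (c₂ * ((2 : ℝ) ^ j) ^ 3) := by
          have := mul_le_mul_of_nonneg_left h6 hc₂.le
          linarith
        _ = 13824 * c₂ * ((2 : ℝ) ^ j) ^ 3 := by ring
    have h8 : (0 : ℝ) < ((2 : ℝ) ^ j) ^ 3 := by positivity
    have h9 : ((2 : ℝ) ^ j) ^ 4 = 2 ^ j * ((2 : ℝ) ^ j) ^ 3 := by ring
    rw [h9] at h7
    have h10 := le_of_mul_le_mul_right h7 h8
    linarith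

end Pool.Agent.Results.MP_55ef7c_ag.QuarticGrowth
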